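import Pool.Agent.Helper771.CInv.P_core

/-!
# Conformal invariants built only from the Schouten tensor: the algebraic core for all weights

This file adapts the core of the starting library `Pool.Agent.Helper771.CInv` (weight `-n`, `n` even,
`n ≥ 6`) to the weights `-w`, `w ≤ n`, in all dimensions `n ≥ 5`.
-/

set_option linter.all false

open scoped BigOperators

namespace Pool.Agent.Y147.CW

open CInv

/-- The properties of the lowest order forms, for the weight `-w`. -/
structure GoodFormW (n w r : ℕ) (B : MultilinearMap ℂ (fun _ : Fin r => Mx n) ℂ) : Prop where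
  gauge : ∀ (h : Fin r → Mx n) (j : Fin r) (X : Fin n → MvPolynomial (Fin n) ℂ),
    B (Function.update h j (lieEta X)) = 0
  weyl : ∀ (h : Fin r → Mx n) (j : Fin r) (f : MvPolynomial (Fin n) ℂ),
    B (Function.update h j (fun a b => if a = b then f else 0)) = 0
  transp : ∀ (h : Fin r → Mx n) (j : Fin r) (y : Mx n),
    B (Function.update h j (fun a b => y b a)) = B (Function.update h j y)
  ward : ∀ (X : Fin n → MvPolynomial (Fin n) ℂ) (lam : MvPolynomial (Fin n) ℂ),
    (∀ a, MvPolynomial.constantCoeff (X a) = 0) →
    (∀ i j, pdv i (X j) + pdv j (X i) = if i = j then 2 * lam else 0) →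
    ∀ h : Fin r → Mx n, ∑ j, B (Function.update h j (KX X lam (h j)))
      = (w : ℂ) * MvPolynomial.constantCoeff lam * B h
  onshell : ∀ k e : Fin r → Fin n → ℂ, (∀ i, dot (k i) (k i) = 0) → (∀ i, dot (k i) (e i) = 0) →
    (∀ i, dot (e i) (e i) = 0) → (∀ i j, i ≠ j → dot (k i) (k j) ≠ 0) →
    ∀ a : Fin r → ℕ, B (fun i => tens (lin (k i) ^ a i) (e i) (e i)) = 0

theorem deg_homW {n w r : ℕ} {B : MultilinearMap ℂ (fun _ : Fin r => Mx n) ℂ}
    (hB : GoodFormW n w r B) (h : Fin r → Mx n) (d : Fin r → ℕ)
    (hd : ∀ i s t, (h i s t).IsHomogeneous (d i)) (hs : ∑ i, d i ≠ w) : B h = 0 := by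
  classical
  have h1 := hB.ward (fun a => (MvPolynomial.X a : MvPolynomial (Fin n) ℂ)) 1 (by
    intro a
    simp) (by
    intro i j
    unfold pdv
    by_cases hij : i = j
    · subst hij
      rw [MvPolynomial.pderiv_X_self, if_pos rfl]
      ring
    · rw [MvPolynomial.pderiv_X_of_ne (Ne.symm hij), MvPolynomial.pderiv_X_of_ne hij, if_neg hij,
        add_zero]) h
  have h2 : ∀ j, B (Function.update h j
      (KX (fun a => (MvPolynomial.X a : MvPolynomial (Fin n) ℂ)) 1 (h j))) = (d j : ℂ) * B h := by
    intro j
    rw [euler_KX (h j) (d j) (hd j), B.map_update_smul, Function.update_eq_self, smul_eq_mul]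
  rw [Finset.sum_congr rfl fun j _ => h2 j, ← Finset.sum_mul, map_one, mul_one] at h1
  have h3 : ((∑ j, (d j : ℂ)) - w) * B h = 0 := by
    rw [sub_mul, h1, sub_self]
  rcases mul_eq_zero.1 h3 with h4 | h4
  · exfalso
    apply hs
    have h5 : (((∑ j, d j : ℕ)) : ℂ) = (w : ℂ) := by
      push_cast
      linear_combination h4
    exact_mod_cast h5
  · exact h4

theorem lg_symW {n w r : ℕ} {B : MultilinearMap ℂ (fun _ : Fin r => Mx n) ℂ}
    (hB : GoodFormW n w r B) (h : Fin r → Mx n) (j : Fin r) :
    B h = B (Function.update h j ((1 / 2 : ℂ) • (h j + fun a b => h j b a))) := by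
  have ht := hB.transp h j (h j)
  rw [B.map_update_smul, B.map_update_add, ht, Function.update_eq_self]
  simp only [smul_eq_mul]
  ring

theorem low_gaugeW {n w r : ℕ} {B : MultilinearMap ℂ (fun _ : Fin r => Mx n) ℂ}
    (hB : GoodFormW n w r B) (h : Fin r → Mx n) (j : Fin r) (d : ℕ) (hd1 : d ≤ 1)
    (hd : ∀ s t, (h j s t).IsHomogeneous d) : B h = 0 := by
  rw [lg_symW hB h j]
  interval_cases d
  · have key := hB.gauge h j (fun j' => ∑ i, MvPolynomial.C
      (((MvPolynomial.coeff 0 (h j i j') + MvPolynomial.coeff 0 (h j j' i)) / 2) / 2)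
        * MvPolynomial.X i)
    rw [lg_aux0 (fun i j' => (MvPolynomial.coeff 0 (h j i j') + MvPolynomial.coeff 0 (h j j' i)) / 2)
      (fun i j' => by ring)] at key
    rw [← key]
    congr 2
    funext s t
    have e1 := lg_hom0 (hd s t)
    have e2 := lg_hom0 (hd t s)
    simp only [Pi.smul_apply, Pi.add_apply]
    rw [MvPolynomial.smul_eq_C_mul]
    conv_lhs => rw [e1, e2]
    rw [← MvPolynomial.C_add, ← MvPolynomial.C_mul]
    congr 1
    ring
  · have hc : ∀ s t, h j s t = ∑ a, MvPolynomial.C
        (MvPolynomial.coeff 0 (MvPolynomial.pderiv a (h j s t))) * MvPolynomial.X a := by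
      intro s t
      have e := (hd s t).sum_X_mul_pderiv
      rw [one_smul] at e
      conv_lhs => rw [← e]
      refine Finset.sum_congr rfl fun a _ => ?_
      rw [mul_comm]
      congr 1
      exact lg_hom0 (by simpa using (hd s t).pderiv (i := a))
    set m : Fin n → Fin n → Fin n → ℂ := fun a s t =>
      (MvPolynomial.coeff 0 (MvPolynomial.pderiv a (h j s t))
        + MvPolynomial.coeff 0 (MvPolynomial.pderiv a (h j t s))) / 2 with hm
    have key := hB.gauge h j (fun k => ∑ i, ∑ j', MvPolynomial.C
      ((m i j' k + m j' i k - m k i j') / 4) * (MvPolynomial.X i * MvPolynomial.X j'))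
    rw [lg_aux1 m (fun a i j' => by simp only [hm]; ring)] at key
    rw [← key]
    congr 2
    funext s t
    simp only [Pi.smul_apply, Pi.add_apply]
    rw [MvPolynomial.smul_eq_C_mul]
    conv_lhs => rw [hc s t, hc t s]
    rw [← Finset.sum_add_distrib, Finset.mul_sum]
    refine Finset.sum_congr rfl fun a _ => ?_
    rw [← add_mul, ← mul_assoc, ← MvPolynomial.C_add, ← MvPolynomial.C_mul]
    congr 2
    simp only [hm]
    ring

theorem deg_boundW {n w r : ℕ} {B : MultilinearMap ℂ (fun _ : Fin r => Mx n) ℂ}
    (hB : GoodFormW n w r B) (h : Fin r → Mx n) (j : Fin r) (d : ℕ)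
    (hd : ∀ s t, (h j s t).IsHomogeneous d) (hr : w + 2 < d + 2 * r) : B h = 0 := by
  classical
  -- a uniform bound of the degrees
  obtain ⟨N, hN⟩ : ∃ N : ℕ, ∀ i s t, (h i s t).totalDegree < N := by
    refine ⟨(∑ i, ∑ s, ∑ t, (h i s t).totalDegree) + 1, fun i s t => Nat.lt_succ_of_le ?_⟩
    calc (h i s t).totalDegree ≤ ∑ t, (h i s t).totalDegree :=
          Finset.single_le_sum (f := fun t => (h i s t).totalDegree) (fun _ _ => Nat.zero_le _)
            (Finset.mem_univ t)
      _ ≤ ∑ s, ∑ t, (h i s t).totalDegree :=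
          Finset.single_le_sum (f := fun s => ∑ t, (h i s t).totalDegree)
            (fun _ _ => Nat.zero_le _) (Finset.mem_univ s)
      _ ≤ ∑ i, ∑ s, ∑ t, (h i s t).totalDegree :=
          Finset.single_le_sum (f := fun i => ∑ s, ∑ t, (h i s t).totalDegree)
            (fun _ _ => Nat.zero_le _) (Finset.mem_univ i)
  let g : Fin r → ℕ → Mx n := fun i m s t => MvPolynomial.homogeneousComponent m (h i s t)
  have hexp : h = fun i => ∑ m ∈ Finset.range N, g i m := by
    funext i s t
    rw [Finset.sum_apply, Finset.sum_apply]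
    exact (deg_bound_expand N (h i s t) (hN i s t)).symm
  rw [hexp, MultilinearMap.map_sum_finset]
  refine Finset.sum_eq_zero fun f _ => ?_
  have hhom : ∀ i s t, (g i (f i) s t).IsHomogeneous (f i) := fun i s t =>
    MvPolynomial.homogeneousComponent_isHomogeneous (f i) (h i s t)
  by_cases hfj : f j = d
  · by_cases hlow : ∃ i, i ≠ j ∧ f i ≤ 1
    · obtain ⟨i, _, hi⟩ := hlow
      exact low_gaugeW hB _ i (f i) hi (hhom i)
    · push Not at hlow
      refine deg_homW hB _ f hhom ?_
      have h1 : ∑ i, f i = f j + ∑ i ∈ Finset.univ.erase j, f i :=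
        (Finset.add_sum_erase _ _ (Finset.mem_univ j)).symm
      have h2 : (Finset.univ.erase j).card • 2 ≤ ∑ i ∈ Finset.univ.erase j, f i := by
        refine Finset.card_nsmul_le_sum _ _ _ fun i hi => ?_
        exact hlow i (Finset.ne_of_mem_erase hi)
      rw [Finset.card_erase_of_mem (Finset.mem_univ j), Finset.card_univ, Fintype.card_fin,
        smul_eq_mul] at h2
      have h3 : 0 < r := Nat.lt_of_le_of_lt (Nat.zero_le _) j.2
      omega
  · refine MultilinearMap.map_coord_zero B j ?_
    funext s t
    change MvPolynomial.homogeneousComponent (f j) (h j s t) = 0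
    rw [MvPolynomial.homogeneousComponent_of_mem (hd s t), if_neg hfj]

theorem onshell_framesW {n w r : ℕ} (hn : 5 ≤ n) {B : MultilinearMap ℂ (fun _ : Fin r => Mx n) ℂ}
    (hB : GoodFormW n w r B) (F : Fin r → Frame n) (a : Fin r → ℕ) :
    B (fun i => nu (F i).k (F i).l (F i).e (a i) 0) = 0 := by
  classical
  induction hN : (of_bad F).card using Nat.strong_induction_on generalizing F with
  | _ N ih =>
    subst hN
    have IH : ∀ G : Fin r → Frame n, (of_bad G).card < (of_bad F).card →
        B (fun i => nu (G i).k (G i).l (G i).e (a i) 0) = 0 := fun G hG => ih _ hG G rfl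
    by_cases hb : of_bad F = ∅
    · have h := hB.onshell (fun i => (F i).k) (fun i => (F i).e) (fun i => (F i).kk)
        (fun i => (F i).ke) (fun i => (F i).ee) (fun i j hij h0 => by
          have : ((i, j) : Fin r × Fin r) ∈ of_bad F := (of_mem_bad F _).2 ⟨hij, h0⟩
          rw [hb] at this
          exact absurd this (Finset.notMem_empty _)) a
      have e : (fun i => nu (F i).k (F i).l (F i).e (a i) 0)
          = fun i => tens (lin ((F i).k) ^ a i) ((F i).e) ((F i).e) := by
        funext i
        rw [of_nu0]
      rw [e]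
      exact h
    · obtain ⟨p, hp⟩ := Finset.nonempty_iff_ne_empty.2 hb
      rw [of_mem_bad] at hp
      obtain ⟨hij, hbad⟩ := hp
      set i := p.1
      set j := p.2
      by_cases h1 : ∃ α, dot ((F i).f α) (F j).k ≠ 0 ∨ dot (F i).l (F j).k ≠ 0
      · obtain ⟨α, hα⟩ := h1
        refine of_step F a i j hij hbad ((F i).f α) (F i).l 0 (fun σ => ?_) hα IH
        obtain ⟨G, h1, h2, h3, h4⟩ := (fams (F i) σ).1 α
        exact ⟨G, h1, by rw [h3, smul_zero, sub_zero]⟩
      by_cases h2 : dot (F i).e' (F j).k ≠ 0
      · refine of_step F a i j hij hbad (F i).e' 0 (F i).l (fun σ => ?_) (Or.inl h2) IH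
        obtain ⟨G, h1, h2, h3, h4⟩ := (fams (F i) σ).2.1
        exact ⟨G, by rw [h1, smul_zero, sub_zero], h3⟩
      by_cases h3 : dot (F i).e (F j).k ≠ 0
      · refine of_step F a i j hij hbad (F i).e 0 0 (fun σ => ?_) (Or.inl h3) IH
        obtain ⟨G, h1, h2, h3, h4⟩ := (fams (F i) σ).2.2.1
        exact ⟨G, by rw [h1, smul_zero, sub_zero], by rw [h3, smul_zero, sub_zero]⟩
      exfalso
      push Not at h1 h2 h3
      have hα : ∃ α : Fin (n - 4), True := ⟨⟨0, by omega⟩, trivial⟩
      obtain ⟨α0, -⟩ := hα
      have hy : (F j).k = 0 := by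
        rw [frame_decomp (F i) (F j).k, of_dot_comm (F j).k (F i).l, (h1 α0).2,
          of_dot_comm (F j).k (F i).k, hbad, of_dot_comm (F j).k (F i).e', h2,
          of_dot_comm (F j).k (F i).e, h3]
        simp only [mul_zero, zero_smul, add_zero, zero_add]
        refine Finset.sum_eq_zero fun α _ => ?_
        rw [of_dot_comm, (h1 α).1, zero_smul]
      have h4 := (F j).kl
      rw [hy] at h4
      unfold dot at h4
      simp at h4

theorem ward_scW {n w r : ℕ} {B : MultilinearMap ℂ (fun _ : Fin r => Mx n) ℂ}
    (hB : GoodFormW n w r B) (b : Fin n → ℂ) (h : Fin r → Mx n) :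
    ∑ j, B (Function.update h j (Kb b (h j))) = 0 := by
  have hcl : MvPolynomial.constantCoeff (lin b) = 0 := by
    unfold lin
    rw [map_sum]
    apply Finset.sum_eq_zero
    intro i _
    rw [map_mul, MvPolynomial.constantCoeff_X, mul_zero]
  have hcx : MvPolynomial.constantCoeff (xsq n) = 0 := by
    unfold xsq
    rw [map_sum]
    apply Finset.sum_eq_zero
    intro i _
    rw [map_pow, MvPolynomial.constantCoeff_X, zero_pow two_ne_zero]
  have hX : ∀ i j : Fin n, MvPolynomial.pderiv i (MvPolynomial.X j : MvPolynomial (Fin n) ℂ) =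
      if i = j then 1 else 0 := by
    intro i j
    rw [MvPolynomial.pderiv_X, Pi.single_apply]
    by_cases hij : j = i
    · rw [if_pos hij, if_pos hij.symm]
    · rw [if_neg hij, if_neg (Ne.symm hij)]
  have hl : ∀ i, MvPolynomial.pderiv i (lin b) = MvPolynomial.C (b i) := by
    intro i
    unfold lin
    rw [map_sum]
    have : ∀ j ∈ Finset.univ, MvPolynomial.pderiv i (MvPolynomial.C (b j) * MvPolynomial.X j :
        MvPolynomial (Fin n) ℂ) = if i = j then MvPolynomial.C (b j) else 0 := by
      intro j _
      rw [MvPolynomial.pderiv_C_mul, hX, mul_ite, mul_one, mul_zero]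
    rw [Finset.sum_congr rfl this, Finset.sum_ite_eq, if_pos (Finset.mem_univ _)]
  have hx : ∀ i, MvPolynomial.pderiv i (xsq n) = 2 * MvPolynomial.X i := by
    intro i
    unfold xsq
    rw [map_sum]
    have : ∀ j ∈ Finset.univ, MvPolynomial.pderiv i (MvPolynomial.X j ^ 2 :
        MvPolynomial (Fin n) ℂ) = if i = j then 2 * MvPolynomial.X j else 0 := by
      intro j _
      rw [sq, MvPolynomial.pderiv_mul, hX]
      by_cases hij : i = j
      · rw [if_pos hij, if_pos hij]; ring
      · rw [if_neg hij, if_neg hij]; ring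
    rw [Finset.sum_congr rfl this, Finset.sum_ite_eq, if_pos (Finset.mem_univ _)]
  have hp : ∀ i j, pdv i (scX b j) = 2 * MvPolynomial.C (b i) * MvPolynomial.X j +
      2 * lin b * (if i = j then 1 else 0) - 2 * MvPolynomial.X i * MvPolynomial.C (b j) := by
    intro i j
    unfold pdv scX
    have h2 : (2 : MvPolynomial (Fin n) ℂ) * lin b = lin b + lin b := two_mul _
    rw [h2, map_sub, MvPolynomial.pderiv_mul, MvPolynomial.pderiv_mul, map_add, hl, hx, hX,
      MvPolynomial.pderiv_C]
    ring
  have key := hB.ward (scX b) (2 * lin b) ?_ ?_ h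
  · rw [map_mul, hcl, mul_zero, mul_zero, zero_mul] at key
    exact key
  · intro a
    unfold scX
    rw [map_sub, map_mul, map_mul, map_mul, hcl, hcx]
    ring
  · intro i j
    rw [hp, hp]
    by_cases hij : i = j
    · subst hij
      rw [if_pos rfl, if_pos rfl]
      ring
    · rw [if_neg hij, if_neg (Ne.symm hij), if_neg hij]
      ring

theorem core_oneW {n w : ℕ} (hn : 5 ≤ n) {B : MultilinearMap ℂ (fun _ : Fin 1 => Mx n) ℂ}
    (hB : GoodFormW n w 1 B) : B = 0 := by
  set L : Mx n →ₗ[ℂ] ℂ := B.toLinearMap (0 : ∀ _ : Fin 1, Mx n) 0 with hL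
  have hLy : ∀ y, L y = B (Function.update (0 : ∀ _ : Fin 1, Mx n) 0 y) := fun y => rfl
  have hL0 : L = 0 := by
    apply core_span (by omega) L
    · intro X; rw [hLy]; exact hB.gauge _ _ X
    · intro f; rw [hLy]; exact hB.weyl _ _ f
    · intro y; rw [hLy, hLy]; exact hB.transp _ _ y
    · intro F a m
      have h1 := hB.ward (core_one_X F.e F.e') 0 (by
          intro b
          unfold core_one_X lin
          simp) (by
          intro i j
          rw [core_one_pdvX, core_one_pdvX, ← MvPolynomial.C_add]
          have : (2 * F.e j * F.e' i - 2 * F.e' j * F.e i +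
            (2 * F.e i * F.e' j - 2 * F.e' i * F.e j)) = 0 := by ring
          rw [this]; simp) (fun _ => nu F.k F.l F.e a m)
      simp only [Finset.univ_unique, Fin.default_eq_zero, Finset.sum_singleton, map_zero, mul_zero,
        zero_mul] at h1
      rw [core_one_KX, MultilinearMap.map_update_smul] at h1
      have h2 : Function.update (fun _ : Fin 1 => nu F.k F.l F.e a m) 0 (nu F.k F.l F.e a m) =
          Function.update (0 : ∀ _ : Fin 1, Mx n) 0 (nu F.k F.l F.e a m) := by
        funext i
        have : i = 0 := Subsingleton.elim _ _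
        subst this
        simp
      rw [h2] at h1
      rw [hLy]
      exact (smul_eq_zero.1 h1).resolve_left (by norm_num)
  refine MultilinearMap.ext (fun y => ?_)
  have h3 : y = Function.update (0 : ∀ _ : Fin 1, Mx n) 0 (y 0) := by
    funext i
    have : i = 0 := Subsingleton.elim _ _
    subst this
    simp
  rw [h3, ← hLy, hL0]; rfl

theorem cs_lowW {n w r : ℕ} (hn : 5 ≤ n) (hr : 2 ≤ r) (hrn : 2 * r ≤ n)
    {B : MultilinearMap ℂ (fun _ : Fin r => Mx n) ℂ} (hB : GoodFormW n w r B)
    (J : Finset (Fin r)) (j : Fin r) (hj : j ∉ J)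
    (hJ : ∀ h : Fin r → Mx n, (∀ c, c ∉ J → ∃ (F : Frame n) (a : ℕ),
      h c = nu F.k F.l F.e a 0) → B h = 0) (m : ℕ) (hm : 2 * m < n) :
    ∀ h : Fin r → Mx n, (∀ c, c ∉ insert j J → ∃ (F : Frame n) (a : ℕ),
      h c = nu F.k F.l F.e a 0) → ∀ (F : Frame n) (a : ℕ),
    B (Function.update h j (nu F.k F.l F.e a m)) = 0 := by
  induction m using Nat.strong_induction_on with
  | _ m ih =>
    intro h hh F a
    cases m with
    | zero =>
      apply hJ
      intro c hc
      by_cases hcj : c = j
      · subst hcj
        exact ⟨F, a, by rw [Function.update_self]⟩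
      · rw [Function.update_of_ne hcj]
        apply hh
        rw [Finset.mem_insert]
        tauto
    | succ m =>
      have hm' : 2 * m < n := by omega
      have hClm := ih m (by omega) hm'
      let L : Mx n →ₗ[ℂ] ℂ := B.toLinearMap h j
      have hL : ∀ y : Mx n, L y = B (Function.update h j y) := fun y => rfl
      have hN : ∀ F : Frame n, ∀ j' ≤ m, ∀ b, b + j' = a + m + 1 →
          L (nu F.k F.l F.e b j') = 0 := by
        intro F' j' hj' b _
        rw [hL]
        exact ih j' (by omega) (by omega) h hh F' b
      -- frames of the on-shell legs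
      have hch : ∀ c : Fin r, ∃ (G : Frame n) (b : ℕ), c ∉ insert j J →
          h c = nu G.k G.l G.e b 0 := by
        intro c
        by_cases hc : c ∈ insert j J
        · exact ⟨F, 0, fun hc' => absurd hc hc'⟩
        · obtain ⟨G, b, hG⟩ := hh c hc
          exact ⟨G, b, fun _ => hG⟩
      choose Fr bb hFr using hch
      let s : Finset (Fin r) := Finset.univ \ insert j J
      classical
      let S : Finset (Fin n → ℂ) := (s.image (fun c => (Fr c).k)) ∪ (s.image (fun c => (Fr c).e))
      let Z : Submodule ℂ (Fin n → ℂ) := Submodule.span ℂ (S : Set (Fin n → ℂ))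
      have hscard : s.card + 1 ≤ r := by
        have h1 : s ⊆ Finset.univ.erase j := by
          intro c hc
          rw [Finset.mem_erase]
          refine ⟨?_, Finset.mem_univ _⟩
          intro hcj
          rw [Finset.mem_sdiff] at hc
          apply hc.2
          rw [hcj]
          exact Finset.mem_insert_self _ _
        have h2 := Finset.card_le_card h1
        rw [Finset.card_erase_of_mem (Finset.mem_univ _), Finset.card_univ, Fintype.card_fin] at h2
        have : 1 ≤ r := by omega
        omega
      have hScard : S.card ≤ 2 * s.card := by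
        have h1 := Finset.card_union_le (s.image (fun c => (Fr c).k)) (s.image (fun c => (Fr c).e))
        have h2 := Finset.card_image_le (s := s) (f := fun c => (Fr c).k)
        have h3 := Finset.card_image_le (s := s) (f := fun c => (Fr c).e)
        change ((s.image (fun c => (Fr c).k)) ∪ (s.image (fun c => (Fr c).e))).card ≤ _
        omega
      have hZ : Module.finrank ℂ Z + 2 ≤ n := by
        have h1 : Module.finrank ℂ Z ≤ S.card := finrank_span_finset_le_card (R := ℂ) S
        omega
      rw [← hL]
      apply gen_density (by omega) L a (m + 1) Z hZ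
      intro F hF
      obtain ⟨ξ, hξZ, hξe, hξk⟩ := xi_exists Z F hF
      have hw := ward_scW hB ξ (Function.update h j (nu F.k F.l F.e a m))
      have hterm : ∀ c : Fin r, c ≠ j →
          B (Function.update (Function.update h j (nu F.k F.l F.e a m)) c
            (Kb ξ ((Function.update h j (nu F.k F.l F.e a m)) c))) = 0 := by
        intro c hcj
        rw [Function.update_of_ne hcj]
        by_cases hcJ : c ∈ J
        · rw [Function.update_comm (Ne.symm hcj)]
          apply hClm
          intro d hd
          have hdc : d ≠ c := by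
            intro h
            apply hd
            rw [h]
            exact Finset.mem_insert_of_mem hcJ
          rw [Function.update_of_ne hdc]
          exact hh d hd
        · have hcI : c ∉ insert j J := by
            rw [Finset.mem_insert]
            tauto
          have hcs : c ∈ s := by
            rw [Finset.mem_sdiff]
            exact ⟨Finset.mem_univ _, hcI⟩
          have hkZ : (Fr c).k ∈ Z := by
            apply Submodule.subset_span
            exact Finset.mem_coe.2 (Finset.mem_union_left _ (Finset.mem_image_of_mem _ hcs))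
          have heZ : (Fr c).e ∈ Z := by
            apply Submodule.subset_span
            exact Finset.mem_coe.2 (Finset.mem_union_right _ (Finset.mem_image_of_mem _ hcs))
          let L' : Mx n →ₗ[ℂ] ℂ := B.toLinearMap (Function.update h j (nu F.k F.l F.e a m)) c
          have hL' : ∀ y : Mx n, L' y =
              B (Function.update (Function.update h j (nu F.k F.l F.e a m)) c y) := fun y => rfl
          have hkill : ∀ (G : Frame n) (b : ℕ), L' (nu G.k G.l G.e b 0) = 0 := by
            intro G b
            rw [hL', Function.update_comm (Ne.symm hcj)]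
            apply hClm
            intro d hd
            by_cases hdc : d = c
            · subst hdc
              exact ⟨G, b, by rw [Function.update_self]⟩
            · rw [Function.update_of_ne hdc]
              exact hh d hd
          have hcK := core_K (by omega : 4 ≤ n) L' 0 (bb c) (by
            intro G j' hj' b _
            have : j' = 0 := by omega
            subst this
            exact hkill G b) (Fr c)
          rw [← hL', hFr c hcI]
          have h5 := csLam_dec L' (nu (Fr c).k (Fr c).l (Fr c).e (bb c) 0) (Fr c) ξ hcK.2.1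
            hcK.2.2.1 hcK.2.2.2 (hξZ _ heZ)
          rw [h5, hξZ _ hkZ]
          ring
      rw [Finset.sum_eq_single j (fun c _ hc => hterm c hc)
        (fun hc => absurd (Finset.mem_univ j) hc)] at hw
      rw [Function.update_idem, Function.update_self, ← hL] at hw
      have hcK := core_K (by omega : 4 ≤ n) L m a hN F
      have h5 := csLam_dec L (nu F.k F.l F.e a m) F ξ hcK.2.1 hcK.2.2.1 hcK.2.2.2 hξe
      rw [h5, hξk, hcK.1] at hw
      have h6 : (2 * ((m : ℂ) + 1) - n) ≠ 0 := by
        intro h0
        have h7 : ((2 * (m + 1) : ℕ) : ℂ) = (n : ℂ) := by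
          push_cast
          linear_combination h0
        have h8 : 2 * (m + 1) = n := by exact_mod_cast h7
        omega
      have h9 : (2 * ((m : ℂ) + 1) - n) * L (nu F.k F.l F.e a (m + 1)) = 0 := by
        linear_combination hw
      exact (mul_eq_zero.1 h9).resolve_left h6

theorem core_stepW {n w r : ℕ} (hn : 5 ≤ n) (hw : w ≤ n) (hr : 2 ≤ r) (hrn : 2 * r ≤ n)
    {B : MultilinearMap ℂ (fun _ : Fin r => Mx n) ℂ} (hB : GoodFormW n w r B)
    (J : Finset (Fin r)) (j : Fin r) (hj : j ∉ J)
    (hJ : ∀ h : Fin r → Mx n, (∀ c, c ∉ J → ∃ (F : Frame n) (a : ℕ),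
      h c = nu F.k F.l F.e a 0) → B h = 0)
    (h : Fin r → Mx n) (hh : ∀ c, c ∉ insert j J → ∃ (F : Frame n) (a : ℕ),
      h c = nu F.k F.l F.e a 0) (F : Frame n) (a m : ℕ) :
    B (Function.update h j (nu F.k F.l F.e a m)) = 0 := by
  by_cases hm : 2 * m < n
  · exact cs_lowW hn hr hrn hB J j hj hJ m hm h hh F a
  by_cases ha : 2 * a < n
  · obtain ⟨F', hk, hl, he, -, -⟩ := (fams F 0).2.2.2.2.2
    have h1 : nu F.k F.l F.e a m = nu F'.k F'.l F'.e m a := by
      rw [hk, hl, he]
      unfold nu
      rw [mul_comm]
    rw [h1]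
    exact cs_lowW hn hr hrn hB J j hj hJ a ha h hh F' m
  · apply deg_boundW hB _ j (a + m)
    · intro s t
      rw [Function.update_self]
      exact cs_homog _ _ _ _ _ _ _
    · omega

theorem coreW {n w r : ℕ} (hn : 5 ≤ n) (hw : w ≤ n) (hr : 1 ≤ r)
    {B : MultilinearMap ℂ (fun _ : Fin r => Mx n) ℂ} (hB : GoodFormW n w r B) : B = 0 := by
  classical
  rcases hr.eq_or_lt with h1 | h1
  · subst h1
    exact core_oneW hn hB
  rcases Nat.lt_or_ge n (2 * r) with h2 | h2
  · refine MultilinearMap.ext fun h => ?_
    rw [MultilinearMap.zero_apply]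
    obtain ⟨N, hN⟩ := core_expand (h ⟨0, by omega⟩)
    have h3 : B h = B (Function.update h ⟨0, by omega⟩ (h ⟨0, by omega⟩)) := by
      rw [Function.update_eq_self]
    rw [h3, hN, MultilinearMap.map_update_sum]
    refine Finset.sum_eq_zero fun d _ => ?_
    have h4 : ∀ s t, (Function.update h (⟨0, by omega⟩ : Fin r)
        (fun a b => MvPolynomial.homogeneousComponent d (h ⟨0, by omega⟩ a b))
        ⟨0, by omega⟩ s t).IsHomogeneous d := by
      intro s t
      rw [Function.update_self]
      exact MvPolynomial.homogeneousComponent_isHomogeneous d _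
    rcases Nat.lt_or_ge 1 d with h5 | h5
    · exact deg_boundW hB _ ⟨0, by omega⟩ d h4 (by omega)
    · exact low_gaugeW hB _ ⟨0, by omega⟩ d h5 h4
  · have key : ∀ J : Finset (Fin r), ∀ h : Fin r → Mx n, (∀ c, c ∉ J → ∃ (F : Frame n) (a : ℕ),
        h c = nu F.k F.l F.e a 0) → B h = 0 := by
      intro J
      induction J using Finset.induction_on with
      | empty =>
        intro h hh
        choose F a hF using fun c => hh c (Finset.notMem_empty c)
        have e1 : h = fun i => nu (F i).k (F i).l (F i).e (a i) 0 := funext hF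
        rw [e1]
        exact onshell_framesW (by omega) hB F a
      | insert j J hj ih =>
        intro h hh
        have hL := core_span (n := n) (by omega) (B.toLinearMap h j)
          (fun X => hB.gauge h j X) (fun f => hB.weyl h j f) (fun y => hB.transp h j y)
          (fun F a m => core_stepW hn hw h1 h2 hB J j hj ih h hh F a m)
        have h3 : B.toLinearMap h j (h j) = 0 := by rw [hL]; rfl
        rw [MultilinearMap.toLinearMap_apply, Function.update_eq_self] at h3
        exact h3
    refine MultilinearMap.ext fun h => ?_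
    rw [MultilinearMap.zero_apply]
    exact key Finset.univ h fun c hc => absurd (Finset.mem_univ c) hc

end Pool.Agent.Y147.CW
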