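import Pool.Agent.Y147.CW.Core
import Pool.Agent.Helper771.CInv.P_main_thm

/-!
# Conformal invariants built only from the Schouten tensor: all even weights `-2 k`, `2 k ≤ n`

Adaptation of the starting library `Pool.Agent.Helper771.CInv` (weight `-n`, `n` even, `n ≥ 6`).
-/

set_option linter.all false

open scoped BigOperators

namespace Pool.Agent.Y147.CW

open CInv

theorem gw_stepW {n k : ℕ} {R : Type} [CommRing R] [Algebra ℝ R]
    {c : Contraction →₀ ℝ} {N M : ℕ} {Φ : MvPolynomial (JV n) ℝ}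
    (hΦ : GoodPhi n c N Φ) (hC : ConfPhi n M Φ) (hM : M + k = n * N)
    (s : R) (hs : s * s = 0)
    (X : Fin n → MvPolynomial (Fin n) R) (lam : MvPolynomial (Fin n) R)
    (hX : ∀ a, MvPolynomial.constantCoeff (X a) = 0)
    (hl : ∀ i j, pdv i (X j) + pdv j (X i) = if i = j then 2 * lam else 0)
    (H gi : Fin n → Fin n → MvPolynomial (Fin n) R) (hm : IsMetric (met H) gi) :
    MvPolynomial.aeval (J0 (fun i j => H i j + MvPolynomial.C s * KX X lam H i j)) Φ
      = (1 + s * (((2 * k : ℕ) : R) * MvPolynomial.constantCoeff lam)) *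
        MvPolynomial.aeval (J0 H) Φ := by
  have hc2 : (2 : MvPolynomial (Fin n) R) * MvPolynomial.C (algebraMap ℝ R (1 / 2)) = 1 := by
    have h1 : (2 : MvPolynomial (Fin n) R) = MvPolynomial.C (algebraMap ℝ R 2) := by
      rw [map_ofNat, map_ofNat]
    rw [h1, ← map_mul, ← map_mul]
    norm_num
  set cc : MvPolynomial (Fin n) R := MvPolynomial.C (algebraMap ℝ R (1 / 2)) with hcc
  -- divergence
  have hdiv : ∀ a, pdv a (X a) = lam := by
    intro a
    have h1 := hl a a
    rw [if_pos rfl] at h1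
    calc pdv a (X a) = (2 * cc) * pdv a (X a) := by rw [hc2, one_mul]
      _ = cc * (pdv a (X a) + pdv a (X a)) := by ring
      _ = cc * (2 * lam) := by rw [h1]
      _ = (2 * cc) * lam := by ring
      _ = lam := by rw [hc2, one_mul]
  set S1 : Fin n → Fin n → MvPolynomial (Fin n) R := fun i j => met H i j - flat _ i j
        + MvPolynomial.C s * Lie X (met H) i j with hS1
  have e1 := cov_inf hΦ s hs X H gi hm
  have e2 : MvPolynomial.aeval (J0 S1) Φ
      = (1 + s * ((n : R) * MvPolynomial.constantCoeff lam)) ^ (2 * N)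
        * MvPolynomial.aeval (J0 H) Φ := by
    rw [j0_aeval, j0_aeval, e1]
    simp only [map_mul, map_pow, map_add, map_one, MvPolynomial.constantCoeff_C, map_sum, hX,
      zero_mul, Finset.sum_const_zero, mul_zero, add_zero, hdiv, Finset.sum_const,
      Finset.card_univ, Fintype.card_fin, nsmul_eq_mul, map_natCast]
  have e3 := hC R S1 (MvPolynomial.C s * (-2 * lam))
  have hK : (MvPolynomial.C s : MvPolynomial (Fin n) R) * MvPolynomial.C s = 0 := by
    rw [← map_mul, hs, map_zero]
  -- the conformal Killing operator on the metric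
  have hKm : ∀ i j, KX X lam (met H) i j = cc * (KX X lam H i j + KX X lam H j i) := by
    intro i j
    have h1 : met H = fun a b => flat _ a b + (cc * (H a b + H b a)) := by
      funext a b
      unfold met
      rw [gw_rsmul]
    rw [h1, gw_KX_add, gw_KX_flat X lam hl, zero_add, hcc, gw_KX_Cmul, gw_KX_add,
      gw_KX_tr X lam H i j]
  have hLm : ∀ i j, Lie X (met H) i j
      = cc * (KX X lam H i j + KX X lam H j i) + 2 * lam * met H i j := by
    intro i j
    rw [← hKm i j]
    unfold KX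
    ring
  have hmet : ∀ i j, met H i j = flat _ i j + cc * (H i j + H j i) := by
    intro i j
    unfold met
    rw [gw_rsmul]
  have hfl : ∀ i j : Fin n, flat (MvPolynomial (Fin n) R) j i = flat _ i j := by
    intro i j
    unfold flat
    by_cases h : i = j
    · rw [if_pos h, if_pos h.symm]
    · rw [if_neg h, if_neg (fun h' => h h'.symm)]
  have e4 : (fun i j => (1 + MvPolynomial.C s * (-2 * lam)) * met S1 i j - flat _ i j)
      = fun i j => (1 / 2 : ℝ) • ((H i j + MvPolynomial.C s * KX X lam H i j)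
          + (H j i + MvPolynomial.C s * KX X lam H j i)) := by
    funext i j
    have h1 : met S1 i j = flat _ i j + cc * (S1 i j + S1 j i) := by
      unfold met
      rw [gw_rsmul]
    rw [h1, gw_rsmul, hS1]
    simp only [hLm, hmet, hfl i j]
    linear_combination
      ((1 + MvPolynomial.C s * (-2 * lam)) * (cc * (H i j + H j i) + MvPolynomial.C s *
        (cc * (KX X lam H i j + KX X lam H j i) + 2 * lam * (flat _ i j + cc * (H i j + H j i)))))
        * hc2
      + (-2 * lam * (cc * (KX X lam H i j + KX X lam H j i)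
          + 2 * lam * (flat _ i j + cc * (H i j + H j i)))) * hK
  rw [e4] at e3
  have e5 := hΦ.sym R (J0 (fun i j => H i j + MvPolynomial.C s * KX X lam H i j))
  have e6 : J0 (fun i j => (1 / 2 : ℝ) • ((H i j + MvPolynomial.C s * KX X lam H i j)
          + (H j i + MvPolynomial.C s * KX X lam H j i)))
      = fun v => (1 / 2 : ℝ) • (J0 (fun i j => H i j + MvPolynomial.C s * KX X lam H i j) v
        + J0 (fun i j => H i j + MvPolynomial.C s * KX X lam H i j) (v.2.1, v.1, v.2.2)) := by
    funext v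
    exact gw_J0_sym (fun i j => H i j + MvPolynomial.C s * KX X lam H i j) v
  rw [e6, e5] at e3
  rw [e3, e2, ← mul_assoc]
  congr 1
  rw [map_mul, map_mul, MvPolynomial.constantCoeff_C, gw_pow _ _ hs, gw_pow _ _ hs, map_neg,
    map_ofNat]
  have h1 : (M : R) + (k : R) = (n : R) * (N : R) := by
    exact_mod_cast congrArg (Nat.cast : ℕ → R) hM
  push_cast
  linear_combination (-2 * s * MvPolynomial.constantCoeff lam) * h1
    + (-2 * (M : R) * (2 * (N : R)) * (n : R) * MvPolynomial.constantCoeff lam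
        * MvPolynomial.constantCoeff lam) * hs

theorem gf_wardW {n k r : ℕ} {c : Contraction →₀ ℝ} {N M : ℕ}
    {Φ : MvPolynomial (JV n) ℝ}
    (hΦ : GoodPhi n c N Φ) (hC : ConfPhi n M Φ) (hM : M + k = n * N) (ho : OrdGE r Φ)
    (X : Fin n → MvPolynomial (Fin n) ℂ) (lam : MvPolynomial (Fin n) ℂ)
    (hX : ∀ a, MvPolynomial.constantCoeff (X a) = 0)
    (hl : ∀ i j, pdv i (X j) + pdv j (X i) = if i = j then 2 * lam else 0)
    (h : Fin r → Mx n) :
    ∑ j, polar r (MvPolynomial.map (algebraMap ℝ ℂ) Φ)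
        (fun i => J0 (Function.update h j (KX X lam (h j)) i))
      = ((2 * k : ℕ) : ℂ) * MvPolynomial.constantCoeff lam
        * polar r (MvPolynomial.map (algebraMap ℝ ℂ) Φ) (fun i => J0 (h i)) := by
  classical
  set s : SF (Fin (r + 1)) := SF.gen 0 with hsdef
  have hs2 : s * s = 0 := gw_gen_sq 0
  set φ : ℂ →+* SF (Fin (r + 1)) := algebraMap ℂ (SF (Fin (r + 1))) with hφ
  set H : Fin n → Fin n → MvPolynomial (Fin n) (SF (Fin (r + 1))) := fun a b =>
    ∑ j : Fin r, MvPolynomial.C (SF.gen j.succ) * MvPolynomial.map φ (h j a b) with hH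
  obtain ⟨gi, hm⟩ := sf_inverse H (by
    intro i j m
    rw [hH]
    show (MvPolynomial.coeff m (∑ j' : Fin r,
      MvPolynomial.C (SF.gen j'.succ) * MvPolynomial.map φ (h j' i j))).c ∅ = 0
    rw [MvPolynomial.coeff_sum, gw_c_sum]
    refine Finset.sum_eq_zero (fun j' _ => gw_c_map _ _ ?_ m)
    show (if (∅ : Finset (Fin (r + 1))) = {j'.succ} then (1:ℂ) else 0) = 0
    rw [if_neg]
    intro h'
    exact absurd h'.symm (Finset.singleton_ne_empty _))
  have hstep := gw_stepW hΦ hC hM s hs2 (fun a => MvPolynomial.map φ (X a))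
    (MvPolynomial.map φ lam)
    (by intro a; rw [MvPolynomial.constantCoeff_map, hX, map_zero])
    (by
      intro i j
      rw [gw_pdv_map, gw_pdv_map, ← map_add, hl i j]
      split_ifs
      · rw [map_mul, map_ofNat]
      · rw [map_zero]) H gi hm
  -- jets of the legs
  have hJH : J0 H = fun v => ∑ j : Fin r, (SF.gen j.succ : SF (Fin (r + 1)))
      * algebraMap ℂ _ (J0 (h j) v) := by
    funext v
    unfold J0
    rw [hH]
    show MvPolynomial.constantCoeff (Dw pdv v.2.2.toList (∑ j : Fin r,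
      MvPolynomial.C (SF.gen j.succ) * MvPolynomial.map φ (h j v.1 v.2.1))) = _
    rw [gw_Dw_sum, map_sum]
    refine Finset.sum_congr rfl (fun j _ => ?_)
    rw [gw_Dw_Cmul, map_mul, MvPolynomial.constantCoeff_C, gw_Dw_map,
      MvPolynomial.constantCoeff_map]
  have hKX : ∀ i j, KX (fun a => MvPolynomial.map φ (X a)) (MvPolynomial.map φ lam) H i j
      = ∑ j' : Fin r, MvPolynomial.C (SF.gen j'.succ)
        * MvPolynomial.map φ (KX X lam (h j') i j) := by
    intro i j
    rw [hH, gw_KX_sum]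
    refine Finset.sum_congr rfl (fun j' _ => ?_)
    rw [gw_KX_Cmul, gw_KX_map]
  have hJY : J0 (fun i j => H i j + MvPolynomial.C s
        * KX (fun a => MvPolynomial.map φ (X a)) (MvPolynomial.map φ lam) H i j)
      = fun v => ∑ j : Fin r, (SF.gen j.succ : SF (Fin (r + 1)))
        * (algebraMap ℂ _ (J0 (h j) v) + SF.gen 0 * algebraMap ℂ _ (J0 (KX X lam (h j)) v)) := by
    funext v
    unfold J0
    rw [gw_Dw_add, gw_Dw_Cmul, map_add, map_mul, MvPolynomial.constantCoeff_C, hKX]
    have h1 : MvPolynomial.constantCoeff (Dw pdv v.2.2.toList (H v.1 v.2.1))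
        = ∑ j : Fin r, (SF.gen j.succ : SF (Fin (r + 1))) * algebraMap ℂ _ (J0 (h j) v) :=
      congrFun hJH v
    rw [h1, gw_Dw_sum, map_sum, Finset.mul_sum, ← Finset.sum_add_distrib]
    refine Finset.sum_congr rfl (fun j _ => ?_)
    rw [gw_Dw_Cmul, map_mul, MvPolynomial.constantCoeff_C, gw_Dw_map,
      MvPolynomial.constantCoeff_map]
    unfold J0
    ring
  rw [hJY, hJH, MvPolynomial.constantCoeff_map] at hstep
  obtain ⟨w1, w2, w3⟩ := exp_ward ho (fun j => J0 (h j)) (fun j => J0 (KX X lam (h j)))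
  have hfin := congrArg (fun x : SF (Fin (r + 1)) => x.c Finset.univ) hstep
  change (MvPolynomial.aeval (fun v => ∑ j : Fin r, (SF.gen j.succ : SF (Fin (r + 1)))
        * (algebraMap ℂ _ (J0 (h j) v) + SF.gen 0 * algebraMap ℂ _ (J0 (KX X lam (h j)) v))) Φ).c
          Finset.univ = _ at hfin
  rw [w1] at hfin
  have hR : ((1 + s * (((2 * k : ℕ) : SF (Fin (r + 1))) * φ (MvPolynomial.constantCoeff lam)))
      * MvPolynomial.aeval (fun v => ∑ j : Fin r, (SF.gen j.succ : SF (Fin (r + 1)))
      * algebraMap ℂ _ (J0 (h j) v)) Φ).c Finset.univ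
      = ((2 * k : ℕ) : ℂ) * MvPolynomial.constantCoeff lam
        * polar r (MvPolynomial.map (algebraMap ℝ ℂ) Φ) (fun i => J0 (h i)) := by
    have h2 : (1 + s * (((2 * k : ℕ) : SF (Fin (r + 1))) * φ (MvPolynomial.constantCoeff lam)))
      * MvPolynomial.aeval (fun v => ∑ j : Fin r, (SF.gen j.succ : SF (Fin (r + 1)))
      * algebraMap ℂ _ (J0 (h j) v)) Φ
      = MvPolynomial.aeval (fun v => ∑ j : Fin r, (SF.gen j.succ : SF (Fin (r + 1)))
      * algebraMap ℂ _ (J0 (h j) v)) Φ
      + algebraMap ℂ _ (((2 * k : ℕ) : ℂ) * MvPolynomial.constantCoeff lam)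
        * (s * MvPolynomial.aeval (fun v => ∑ j : Fin r, (SF.gen j.succ : SF (Fin (r + 1)))
      * algebraMap ℂ _ (J0 (h j) v)) Φ) := by
      rw [map_mul, map_natCast]
      ring
    rw [h2, SF.c_add, w3, zero_add, gw_cl_mul, w2]
  rw [← hR, ← hfin]
  refine Finset.sum_congr rfl (fun j _ => ?_)
  congr 1
  funext i
  by_cases hij : i = j
  · subst hij
    rw [Function.update_self, Function.update_self]
  · rw [Function.update_of_ne hij, Function.update_of_ne hij]

theorem good_formW {n k r : ℕ} {c : Contraction →₀ ℝ} {N M : ℕ}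
    {Φ : MvPolynomial (JV n) ℝ}
    (hΦ : GoodPhi n c N Φ) (hC : ConfPhi n M Φ) (hM : M + k = n * N) (ho : OrdGE r Φ) :
    ∃ B : MultilinearMap ℂ (fun _ : Fin r => Mx n) ℂ,
      (∀ h, B h = polar r (MvPolynomial.map (algebraMap ℝ ℂ) Φ) (fun i => J0 (h i))) ∧
      GoodFormW n (2 * k) r B := by
  obtain ⟨B0, hB0⟩ := polar_multilin r (MvPolynomial.map (algebraMap ℝ ℂ) Φ)
  have hB : ∀ h : Fin r → Mx n, (B0.compLinearMap (fun _ => gfx_L n)) h
      = polar r (MvPolynomial.map (algebraMap ℝ ℂ) Φ) (fun i => J0 (h i)) := by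
    intro h
    rw [MultilinearMap.compLinearMap_apply, hB0]
    rfl
  refine ⟨B0.compLinearMap (fun _ => gfx_L n), hB, ?_, ?_, ?_, ?_, ?_⟩
  · intro h j X
    rw [hB]
    exact gf_gauge hΦ ho h j X
  · intro h j f
    rw [hB]
    exact gf_weyl hΦ hC ho h j f
  · intro h j y
    rw [hB, hB]
    exact gf_transp hΦ ho h j y
  · intro X lam hX hl h
    rw [hB]
    simp only [hB]
    exact gf_wardW hΦ hC hM ho X lam hX hl h
  · intro k e h1 h2 h3 h4 a
    rw [hB]
    exact gf_onshell hΦ ho k e h1 h2 h3 h4 a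

theorem ord_inductW {n k r : ℕ} (h5 : 5 ≤ n) (hk : 2 * k ≤ n) (hr : 1 ≤ r) {c : Contraction →₀ ℝ}
    {N M : ℕ} {Φ : MvPolynomial (JV n) ℝ}
    (hΦ : GoodPhi n c N Φ) (hC : ConfPhi n M Φ) (hM : M + k = n * N) (ho : OrdGE r Φ) :
    OrdGE (r + 1) Φ := by
  classical
  obtain ⟨B, hB, hG⟩ := good_formW hΦ hC hM ho
  have hB0 : B = 0 := coreW h5 hk hr hG
  have hsupp : (MvPolynomial.map (algebraMap ℝ ℂ) Φ).support = Φ.support :=
    MvPolynomial.support_map_of_injective Φ (algebraMap ℝ ℂ).injective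
  have ho' : OrdGE r (MvPolynomial.map (algebraMap ℝ ℂ) Φ) := by
    intro m hm
    rw [hsupp] at hm
    exact ho m hm
  have h1 : OrdGE (r + 1) (MvPolynomial.map (algebraMap ℝ ℂ) Φ) := by
    refine ord_succ ho' ?_
    intro u
    choose h hh using fun j => jet_surj (u j)
    have h2 := hB h
    rw [hB0, MultilinearMap.zero_apply] at h2
    have h3 : (fun i => J0 (h i)) = fun j => Pi.single (u j) 1 := funext hh
    rw [h3] at h2
    exact h2.symm
  intro m hm
  exact h1 m (by rw [hsupp]; exact hm)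

/-- conformal invariance of weight `-w` -/
def IsConfInvW (n : ℕ) (w : ℝ) (c : Contraction →₀ ℝ) : Prop :=
  ∀ (U : Set (Fin n → ℝ)), IsOpen U → ∀ g : (Fin n → ℝ) → Matrix (Fin n) (Fin n) ℝ,
    IsMetricOn U g → ∀ ω : (Fin n → ℝ) → ℝ, ContDiffOn ℝ (⊤ : ℕ∞) ω U → ∀ x ∈ U,
      value c (fun y => Real.exp (2 * ω y) • g y) x = Real.exp (-w * ω x) * value c g x

theorem conf_real_nearW {n k : ℕ} {c : Contraction →₀ ℝ} (hc : IsConfInvW n ((2 * k : ℕ) : ℝ) c)
    {N M : ℕ} {Φ : MvPolynomial (JV n) ℝ} (hΦ : GoodPhi n c N Φ) (hM : M + k = n * N)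
    (H : Fin n → Fin n → MvPolynomial (Fin n) ℝ) (f : MvPolynomial (Fin n) ℝ)
    (h1 : (Matrix.of (fun i j => MvPolynomial.constantCoeff (met H i j))).PosDef)
    (h2 : 0 < 1 + MvPolynomial.constantCoeff f) :
    MvPolynomial.aeval (J0 (fun i j => (1 + f) * met H i j - flat _ i j)) Φ
      = (1 + MvPolynomial.constantCoeff f) ^ M * MvPolynomial.aeval (J0 H) Φ := by
  set g : (Fin n → ℝ) → Matrix (Fin n) (Fin n) ℝ :=
    fun y => Matrix.of (fun i j => MvPolynomial.eval y (met H i j)) with hg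
  have hg0 : g 0 = Matrix.of (fun i j => MvPolynomial.constantCoeff (met H i j)) := by
    rw [hg]
    simp only [MvPolynomial.eval_zero]
  have hsymm : ∀ i j, met H i j = met H j i := by
    intro i j
    unfold met flat
    rw [add_comm (H i j)]
    congr 1
    by_cases h : i = j
    · subst h; rfl
    · rw [if_neg h, if_neg (fun e => h e.symm)]
  have hherm : ∀ y, (g y).IsHermitian := by
    intro y
    ext i j
    rw [Matrix.conjTranspose_apply, star_trivial]
    show MvPolynomial.eval y (met H j i) = MvPolynomial.eval y (met H i j)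
    rw [hsymm]
  have hgsm : ∀ i j, ContDiff ℝ (⊤ : ℕ∞) (fun y => g y i j) := fun i j => cnf_contDiff (met H i j)
  have hnear := cnf_posDef_near g (fun i j => (hgsm i j).continuous) hherm (by rw [hg0]; exact h1)
  have hOm : ContDiff ℝ (⊤ : ℕ∞) (fun y : Fin n → ℝ => 1 + MvPolynomial.eval y f) :=
    contDiff_const.add (cnf_contDiff f)
  have hnear2 : ∀ᶠ y in nhds (0 : Fin n → ℝ), 0 < 1 + MvPolynomial.eval y f := by
    have : 0 < 1 + MvPolynomial.eval (0 : Fin n → ℝ) f := by
      rw [MvPolynomial.eval_zero]; exact h2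
    exact hOm.continuous.continuousAt.eventually (lt_mem_nhds this)
  obtain ⟨U, hUsub, hU, h0U⟩ := mem_nhds_iff.mp (hnear.and hnear2)
  have hgU : IsMetricOn U g := ⟨fun i j => (hgsm i j).contDiffOn, fun x hx => (hUsub hx).1⟩
  set om : (Fin n → ℝ) → ℝ := fun y => (1 / 2) * Real.log (1 + MvPolynomial.eval y f) with hom
  have homU : ContDiffOn ℝ (⊤ : ℕ∞) om U := by
    apply ContDiffOn.mul contDiffOn_const
    exact hOm.contDiffOn.log (fun x hx => (hUsub hx).2.ne')
  have hexp : ∀ y ∈ U, Real.exp (2 * om y) = 1 + MvPolynomial.eval y f := by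
    intro y hy
    rw [hom]
    have : 2 * (1 / 2 * Real.log (1 + MvPolynomial.eval y f))
      = Real.log (1 + MvPolynomial.eval y f) := by ring
    simp only [this]
    exact Real.exp_log (hUsub hy).2
  set g2 : (Fin n → ℝ) → Matrix (Fin n) (Fin n) ℝ := fun y => Real.exp (2 * om y) • g y with hg2
  have hg2U : IsMetricOn U g2 := by
    refine ⟨fun i j => ?_, fun x hx => ?_⟩
    · have : (fun x => g2 x i j) = fun x => Real.exp (2 * om x) * g x i j := by
        funext x; rfl
      rw [this]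
      apply ContDiffOn.mul _ (hgsm i j).contDiffOn
      exact (contDiffOn_const.mul homU).exp
    · exact (hgU.posDef x hx).smul (Real.exp_pos _)
  have e1 := hΦ.fn U hU g hgU 0 h0U
  have e2 := hΦ.fn U hU g2 hg2U 0 h0U
  have e3 := hc U hU g hgU om homU 0 h0U
  have e3' : value c g2 0 = Real.exp (-((2 * k : ℕ) : ℝ) * om 0) * value c g 0 := e3
  -- jets
  have j1 : (fun v : JV n => (Ds pd v.2.2
      (fun y => g y v.1 v.2.1 - if v.1 = v.2.1 then 1 else 0) 0 : ℝ))
      = fun v : JV n => (1 / 2 : ℝ) • (J0 H v + J0 H (v.2.1, v.1, v.2.2)) := by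
    funext v
    have hv : (fun y => g y v.1 v.2.1 - if v.1 = v.2.1 then 1 else 0)
        = fun y => MvPolynomial.eval y ((1 / 2 : ℝ) • (H v.1 v.2.1 + H v.2.1 v.1)) := by
      funext y
      show MvPolynomial.eval y (met H v.1 v.2.1) - _ = _
      unfold met flat
      rw [map_add]
      by_cases h : v.1 = v.2.1
      · simp [h]
      · simp [h]
    rw [hv]
    unfold Ds
    rw [cnf_Dw_eval, cnf_pdv_lin]
    simp only [MvPolynomial.eval_zero]
    unfold J0
    rw [MvPolynomial.smul_eq_C_mul, map_mul, map_add, MvPolynomial.constantCoeff_C, smul_eq_mul]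
  have j2 : (fun v : JV n => (Ds pd v.2.2
      (fun y => g2 y v.1 v.2.1 - if v.1 = v.2.1 then 1 else 0) 0 : ℝ))
      = J0 (fun i j => (1 + f) * met H i j - flat _ i j) := by
    funext v
    have hv : ∀ y ∈ U, (g2 y v.1 v.2.1 - if v.1 = v.2.1 then 1 else 0)
        = MvPolynomial.eval y ((1 + f) * met H v.1 v.2.1 - flat _ v.1 v.2.1) := by
      intro y hy
      have : g2 y v.1 v.2.1 = (1 + MvPolynomial.eval y f) * MvPolynomial.eval y (met H v.1 v.2.1) := by
        rw [← hexp y hy]
        rfl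
      rw [this, map_sub, map_mul, map_add, map_one]
      unfold flat
      by_cases h : v.1 = v.2.1
      · simp [h]
      · simp [h]
    unfold Ds
    rw [cnf_Dw_congr hU hv v.2.2.toList 0 h0U, cnf_Dw_eval]
    simp only [MvPolynomial.eval_zero]
    rfl
  rw [j1, hΦ.sym ℝ (J0 H)] at e1
  rw [j2] at e2
  rw [e2, e1, e3']
  have hdet : (g2 0).det = (1 + MvPolynomial.constantCoeff f) ^ n * (g 0).det := by
    rw [hg2]
    simp only
    rw [Matrix.det_smul, hexp 0 h0U, MvPolynomial.eval_zero, Fintype.card_fin]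
  have hexpn : Real.exp (-((2 * k : ℕ) : ℝ) * om 0) *
      (1 + MvPolynomial.constantCoeff f) ^ k = 1 := by
    rw [hom]
    simp only [MvPolynomial.eval_zero]
    have : -((2 * k : ℕ) : ℝ) * (1 / 2 * Real.log (1 + MvPolynomial.constantCoeff f))
        = - (k * Real.log (1 + MvPolynomial.constantCoeff f)) := by push_cast; ring
    rw [this, Real.exp_neg, Real.exp_nat_mul, Real.exp_log h2]
    exact inv_mul_cancel₀ (pow_ne_zero _ h2.ne')
  rw [hdet, mul_pow, ← pow_mul, ← hM, pow_add]
  linear_combination ((1 + MvPolynomial.constantCoeff f) ^ M * (g 0).det ^ N * value c g 0) * hexpn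

theorem conf_phi_realW {n k : ℕ} {c : Contraction →₀ ℝ} (hc : IsConfInvW n ((2 * k : ℕ) : ℝ) c)
    {N M : ℕ} {Φ : MvPolynomial (JV n) ℝ} (hΦ : GoodPhi n c N Φ) (hM : M + k = n * N)
    (H : Fin n → Fin n → MvPolynomial (Fin n) ℝ) (f : MvPolynomial (Fin n) ℝ) :
    conf_phi_F M Φ H f = 0 := by
  let Cι : ℝ →ₐ[ℝ] Polynomial ℝ := Algebra.ofId ℝ (Polynomial ℝ)
  let Hτ : Fin n → Fin n → MvPolynomial (Fin n) (Polynomial ℝ) := fun i j =>
    MvPolynomial.C Polynomial.X * MvPolynomial.mapAlgHom Cι (H i j)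
  let fτ : MvPolynomial (Fin n) (Polynomial ℝ) :=
    MvPolynomial.C Polynomial.X * MvPolynomial.mapAlgHom Cι f
  let q : Polynomial ℝ := conf_phi_F M Φ Hτ fτ
  have hev : ∀ t : ℝ, Polynomial.eval t q =
      conf_phi_F M Φ (fun i j => MvPolynomial.C t * H i j) (MvPolynomial.C t * f) := by
    intro t
    let ψ : Polynomial ℝ →ₐ[ℝ] ℝ := Polynomial.aeval t
    have h1 : ∀ p : MvPolynomial (Fin n) ℝ, MvPolynomial.mapAlgHom ψ
        (MvPolynomial.C Polynomial.X * MvPolynomial.mapAlgHom Cι p) = MvPolynomial.C t * p := by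
      intro p
      rw [map_mul]
      congr 1
      · change MvPolynomial.map (ψ : Polynomial ℝ →+* ℝ) (MvPolynomial.C Polynomial.X) = _
        rw [MvPolynomial.map_C]
        congr 1
        exact Polynomial.aeval_X t
      · change MvPolynomial.map (ψ : Polynomial ℝ →+* ℝ)
          (MvPolynomial.map (Cι : ℝ →+* Polynomial ℝ) p) = p
        rw [MvPolynomial.map_map]
        have h2 : ((ψ : Polynomial ℝ →+* ℝ).comp (Cι : ℝ →+* Polynomial ℝ)) = RingHom.id ℝ := by
          ext x
          exact ψ.commutes x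
        rw [h2, MvPolynomial.map_id]
    have h3 := conf_phi_nat M Φ ψ Hτ fτ
    have h4 : ψ q = Polynomial.eval t q := by
      change Polynomial.aeval t q = _
      rw [Polynomial.coe_aeval_eq_eval]
    rw [← h4]
    change ψ (conf_phi_F M Φ Hτ fτ) = _
    rw [← h3]
    simp only [Hτ, fτ, h1]
  -- small parameters
  let S : Fin n → Fin n → ℝ := fun i j => (1/2) * (MvPolynomial.constantCoeff (H i j) +
    MvPolynomial.constantCoeff (H j i))
  obtain ⟨δ, hδ, hpos⟩ := conf_phi_posDef S (fun i j => by simp only [S]; ring)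
  set c0 : ℝ := MvPolynomial.constantCoeff f with hc0
  have hδ2 : 0 < min δ (1 / (|c0| + 1)) := lt_min hδ (by positivity)
  have hroot : ∀ t : ℝ, |t| < min δ (1 / (|c0| + 1)) → Polynomial.eval t q = 0 := by
    intro t ht
    rw [hev t]
    unfold conf_phi_F
    rw [sub_eq_zero]
    apply conf_real_nearW hc hΦ hM
    · have h1 := hpos t (lt_of_lt_of_le ht (min_le_left _ _))
      suffices e : (fun i j : Fin n => MvPolynomial.constantCoeff
          (met (fun i j => MvPolynomial.C t * H i j) i j)) =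
          (fun i j => (if i = j then (1:ℝ) else 0) + t * S i j) by
        rw [e]
        exact h1
      funext i j
      unfold met flat
      rw [map_add]
      congr 1
      · split_ifs
        · exact map_one _
        · exact map_zero _
      · rw [Algebra.smul_def, map_mul]
        change MvPolynomial.constantCoeff (MvPolynomial.C (1/2 : ℝ)) * _ = _
        rw [MvPolynomial.constantCoeff_C, map_add, map_mul, map_mul,
          MvPolynomial.constantCoeff_C]
        simp only [S]
        ring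
    · have h1 := lt_of_lt_of_le ht (min_le_right _ _)
      rw [lt_div_iff₀ (by positivity)] at h1
      rw [map_mul, MvPolynomial.constantCoeff_C, ← hc0]
      have h2 : |t * c0| < 1 := by
        rw [abs_mul]
        nlinarith [abs_nonneg t, abs_nonneg c0]
      linarith [(abs_lt.1 h2).1]
  have hq : q = 0 := by
    apply Polynomial.eq_zero_of_infinite_isRoot
    refine Set.Infinite.mono ?_ (Set.Ioo_infinite (show (0:ℝ) < min δ (1 / (|c0| + 1)) from hδ2))
    intro t ht
    apply hroot
    rw [abs_of_pos ht.1]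
    exact ht.2
  have h1 := hev 1
  rw [hq, Polynomial.eval_zero] at h1
  simp only [map_one, one_mul] at h1
  exact h1.symm

theorem conf_phiW {n k : ℕ} {c : Contraction →₀ ℝ} (hc : IsConfInvW n ((2 * k : ℕ) : ℝ) c)
    {N M : ℕ} {Φ : MvPolynomial (JV n) ℝ} (hΦ : GoodPhi n c N Φ) (hM : M + k = n * N) :
    ConfPhi n M Φ := by
  classical
  intro R _ _ H f
  rw [← sub_eq_zero]
  change conf_phi_F M Φ H f = 0
  -- the universal ring
  let E : Finset (Fin n →₀ ℕ) := (Finset.univ.biUnion fun i => Finset.univ.biUnion fun j =>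
    (H i j).support) ∪ f.support
  let Λ : Type := (Fin n × Fin n × (Fin n →₀ ℕ)) ⊕ (Fin n →₀ ℕ)
  let Hu : Fin n → Fin n → MvPolynomial (Fin n) (MvPolynomial Λ ℝ) := fun i j =>
    ∑ m ∈ E, MvPolynomial.monomial m (MvPolynomial.X (Sum.inl (i, j, m)))
  let fu : MvPolynomial (Fin n) (MvPolynomial Λ ℝ) :=
    ∑ m ∈ E, MvPolynomial.monomial m (MvPolynomial.X (Sum.inr m))
  have hq : conf_phi_F M Φ Hu fu = 0 := by
    apply MvPolynomial.funext
    intro y
    let ψ : MvPolynomial Λ ℝ →ₐ[ℝ] ℝ := MvPolynomial.aeval y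
    have h1 := conf_phi_nat M Φ ψ Hu fu
    rw [conf_phi_realW hc hΦ hM] at h1
    rw [map_zero]
    have h2 : ψ (conf_phi_F M Φ Hu fu) = MvPolynomial.eval y (conf_phi_F M Φ Hu fu) := by
      exact DFunLike.congr_fun (MvPolynomial.coe_aeval_eq_eval y) _
    rw [← h2, ← h1]
  let ψ : MvPolynomial Λ ℝ →ₐ[ℝ] R := MvPolynomial.aeval (fun l : Λ => match l with
    | Sum.inl (i, j, m) => MvPolynomial.coeff m (H i j)
    | Sum.inr m => MvPolynomial.coeff m f)
  have hmap : ∀ (p : MvPolynomial (Fin n) R) (v : (Fin n →₀ ℕ) → Λ),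
      p.support ⊆ E → (∀ m, ψ (MvPolynomial.X (v m)) = MvPolynomial.coeff m p) →
      MvPolynomial.mapAlgHom ψ (∑ m ∈ E, MvPolynomial.monomial m (MvPolynomial.X (v m))) = p := by
    intro p v hp hv
    rw [map_sum]
    conv_rhs => rw [MvPolynomial.as_sum p]
    rw [← Finset.sum_subset hp]
    · refine Finset.sum_congr rfl fun m _ => ?_
      change MvPolynomial.map (ψ : MvPolynomial Λ ℝ →+* R) _ = _
      rw [MvPolynomial.map_monomial]
      congr 1
      exact hv m
    · intro m _ hm
      change MvPolynomial.map (ψ : MvPolynomial Λ ℝ →+* R) _ = _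
      rw [MvPolynomial.map_monomial]
      have : (ψ : MvPolynomial Λ ℝ →+* R) (MvPolynomial.X (v m)) = 0 := by
        change ψ (MvPolynomial.X (v m)) = 0
        rw [hv m, MvPolynomial.notMem_support_iff.1 hm]
      rw [this, map_zero]
  have hH : (fun i j => MvPolynomial.mapAlgHom ψ (Hu i j)) = H := by
    funext i j
    refine hmap (H i j) (fun m => Sum.inl (i, j, m)) ?_ (fun m => MvPolynomial.aeval_X _ _)
    intro m hm
    refine Finset.mem_union_left _ ?_
    rw [Finset.mem_biUnion]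
    refine ⟨i, Finset.mem_univ _, ?_⟩
    rw [Finset.mem_biUnion]
    exact ⟨j, Finset.mem_univ _, hm⟩
  have hf : MvPolynomial.mapAlgHom ψ fu = f :=
    hmap f (fun m => Sum.inr m) Finset.subset_union_right (fun m => MvPolynomial.aeval_X _ _)
  have h1 := conf_phi_nat M Φ ψ Hu fu
  rw [hq, map_zero, hH, hf] at h1
  exact h1

theorem main_even (n k : ℕ) (h5 : 5 ≤ n) (hk : 2 * k ≤ n) (c : Contraction →₀ ℝ)
    (hc : IsConfInvW n ((2 * k : ℕ) : ℝ) c) (U : Set (Fin n → ℝ)) (hU : IsOpen U)
    (g : (Fin n → ℝ) → Matrix (Fin n) (Fin n) ℝ) (hg : IsMetricOn U g)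
    (x : Fin n → ℝ) (hx : x ∈ U) : value c g x = 0 := by
  obtain ⟨N, Φ, hN, hΦ⟩ := phi_exists n c
  have hn2 : k ≤ n * N := by
    calc k ≤ n := by omega
      _ = n * 1 := (mul_one n).symm
      _ ≤ n * N := Nat.mul_le_mul_left _ hN
  have hM : (n * N - k) + k = n * N := Nat.sub_add_cancel hn2
  have hC := conf_phiW hc hΦ hM
  have hord : ∀ r, OrdGE (r + 1) Φ := by
    intro r
    induction r with
    | zero => exact ord_one hΦ
    | succ r ih => exact ord_inductW h5 hk (by omega) hΦ hC hM ih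
  have hz : Φ = 0 := by
    rw [← MvPolynomial.support_eq_empty, Finset.eq_empty_iff_forall_notMem]
    intro m hm
    have := hord m.degree m hm
    omega
  have hf := hΦ.fn U hU g hg x hx
  rw [hz, map_zero] at hf
  have hdet : (g x).det ^ N ≠ 0 := pow_ne_zero _ (ne_of_gt (hg.posDef x hx).det_pos)
  rcases mul_eq_zero.mp hf.symm with h | h
  · exact absurd h hdet
  · exact h

end Pool.Agent.Y147.CW
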