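import Pool.Agent.Y147.CW.Main

/-!
# Conformal invariants built only from the Schouten tensor: all real weights

Behaviour of the complete contractions under constant rescalings of the metric.
-/

set_option linter.all false

open scoped BigOperators

namespace Pool.Agent.Y147.CW

open CInv

section Formula

variable {n : ℕ} {A : Type} [CommRing A] [Algebra ℝ A]

theorem chr_scale (D : Fin n → A → A) (g gi : Fin n → Fin n → A) (s : ℝ) (hs : s ≠ 0)
    (hD : ∀ i a, D i (s • a) = s • D i a) (k i j : Fin n) :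
    chr D (fun a b => s • g a b) (fun a b => s⁻¹ • gi a b) k i j = chr D g gi k i j := by
  unfold chr
  congr 1
  refine Finset.sum_congr rfl fun l _ => ?_
  rw [hD, hD, hD, ← smul_add, ← smul_sub, smul_mul_smul_comm, inv_mul_cancel₀ hs, one_smul]

theorem ric_scale (D : Fin n → A → A) (g gi : Fin n → Fin n → A) (s : ℝ) (hs : s ≠ 0)
    (hD : ∀ i a, D i (s • a) = s • D i a) (i j : Fin n) :
    ric D (fun a b => s • g a b) (fun a b => s⁻¹ • gi a b) i j = ric D g gi i j := by
  unfold ric
  simp only [chr_scale D g gi s hs hD]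

theorem schouten_scale (D : Fin n → A → A) (g gi : Fin n → Fin n → A) (s : ℝ) (hs : s ≠ 0)
    (hD : ∀ i a, D i (s • a) = s • D i a) (i j : Fin n) :
    schouten D (fun a b => s • g a b) (fun a b => s⁻¹ • gi a b) i j = schouten D g gi i j := by
  have h1 : scal D (fun a b => s • g a b) (fun a b => s⁻¹ • gi a b) = s⁻¹ • scal D g gi := by
    unfold scal
    simp only [ric_scale D g gi s hs hD, Finset.smul_sum, smul_mul_assoc]
  unfold schouten
  rw [ric_scale D g gi s hs hD, h1, smul_mul_smul_comm, inv_mul_cancel₀ hs, one_smul]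

theorem nablaP_scale (D : Fin n → A → A) (g gi : Fin n → Fin n → A) (s : ℝ) (hs : s ≠ 0)
    (hD : ∀ i a, D i (s • a) = s • D i a) (l : ℕ) :
    nablaP D (fun a b => s • g a b) (fun a b => s⁻¹ • gi a b) l = nablaP D g gi l := by
  induction l with
  | zero =>
    funext i
    exact schouten_scale D g gi s hs hD _ _
  | succ l ih =>
    funext i
    show covD D _ _ (nablaP D _ _ l) i = covD D g gi (nablaP D g gi l) i
    rw [ih]
    unfold covD
    simp only [chr_scale D g gi s hs hD]

theorem eval_scale (C : Contraction) (D : Fin n → A → A) (g gi : Fin n → Fin n → A) (s : ℝ)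
    (hs : s ≠ 0) (hD : ∀ i a, D i (s • a) = s • D i a) :
    C.eval D (fun a b => s • g a b) (fun a b => s⁻¹ • gi a b) = (s⁻¹) ^ C.m • C.eval D g gi := by
  unfold Contraction.eval
  rw [Finset.smul_sum]
  refine Finset.sum_congr rfl fun a _ => ?_
  simp only [nablaP_scale D g gi s hs hD]
  rw [Finset.prod_smul, Finset.prod_const, Finset.card_univ, Fintype.card_fin, smul_mul_assoc]

end Formula

theorem pd_smul {n : ℕ} (i : Fin n) (s : ℝ) (f : (Fin n → ℝ) → ℝ) : pd i (s • f) = s • pd i f := by
  funext x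
  show fderiv ℝ (s • f) x (Pi.single i 1) = s • fderiv ℝ f x (Pi.single i 1)
  rw [fderiv_const_smul_field]
  rfl

theorem inv_smul_real {n : ℕ} (s : ℝ) (hs : s ≠ 0) (M : Matrix (Fin n) (Fin n) ℝ) :
    (s • M)⁻¹ = s⁻¹ • M⁻¹ := by
  by_cases h : IsUnit M.det
  · have : Invertible s := invertibleOfNonzero hs
    rw [Matrix.inv_smul M s h, invOf_eq_inv]
  · have h2 : ¬ IsUnit (s • M).det := by
      intro h3
      apply h
      rw [Matrix.det_smul] at h3
      exact isUnit_of_mul_isUnit_right h3
    rw [Matrix.nonsing_inv_apply_not_isUnit _ h, Matrix.nonsing_inv_apply_not_isUnit _ h2,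
      smul_zero]

/-- the values of the homogeneous parts, as a polynomial -/
noncomputable def hpoly {n : ℕ} (c : Contraction →₀ ℝ)
    (g : (Fin n → ℝ) → Matrix (Fin n) (Fin n) ℝ) (x : Fin n → ℝ) : Polynomial ℝ :=
  c.sum fun C t => Polynomial.C (t * C.eval pd (fun i j y => g y i j)
    (fun i j y => (g y)⁻¹ i j) x) * Polynomial.X ^ C.m

theorem value_scale {n : ℕ} (c : Contraction →₀ ℝ)
    (g : (Fin n → ℝ) → Matrix (Fin n) (Fin n) ℝ) (x : Fin n → ℝ) (s : ℝ) (hs : s ≠ 0) :
    value c (fun y => s • g y) x = (hpoly c g x).eval s⁻¹ := by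
  have e1 : (fun (i j : Fin n) (y : Fin n → ℝ) => (s • g y) i j) =
      fun i j => s • (fun y : Fin n → ℝ => g y i j) := rfl
  have e2 : (fun (i j : Fin n) (y : Fin n → ℝ) => (s • g y)⁻¹ i j) =
      fun i j => s⁻¹ • (fun y : Fin n → ℝ => (g y)⁻¹ i j) := by
    funext i j y
    rw [inv_smul_real s hs]
    rfl
  unfold value inv hpoly
  rw [e1, e2]
  unfold Finsupp.sum
  rw [Finset.sum_apply, Polynomial.eval_finset_sum]
  refine Finset.sum_congr rfl fun C _ => ?_
  have hx := congrFun (eval_scale C pd (fun i j y => g y i j) (fun i j y => (g y)⁻¹ i j) s hs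
    (fun i a => pd_smul i s a)) x
  rw [Polynomial.eval_mul, Polynomial.eval_C, Polynomial.eval_pow, Polynomial.eval_X]
  refine Eq.trans (congrArg (fun z : ℝ => c C * z) hx) ?_
  show c C * ((s⁻¹) ^ C.m * C.eval pd (fun i j y => g y i j) (fun i j y => (g y)⁻¹ i j) x) = _
  ring

/-- **Main theorem.** -/
theorem main_all (n : ℕ) (h5 : 5 ≤ n) (w : ℝ) (hw : w ≤ n) (c : Contraction →₀ ℝ)
    (hc : IsConfInvW n w c) (U : Set (Fin n → ℝ)) (hU : IsOpen U)
    (g : (Fin n → ℝ) → Matrix (Fin n) (Fin n) ℝ) (hg : IsMetricOn U g)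
    (x : Fin n → ℝ) (hx : x ∈ U) : value c g x = 0 := by
  set P := hpoly c g x with hP
  have hval : ∀ t : ℝ, P.eval (Real.exp (-2 * t)) = Real.exp (-w * t) * value c g x := by
    intro t
    have h1 := hc U hU g hg (fun _ => t) contDiffOn_const x hx
    have h2 := value_scale c g x (Real.exp (2 * t)) (Real.exp_pos _).ne'
    rw [h2, ← Real.exp_neg] at h1
    rw [← h1, hP]
    congr 2
    ring
  have hv1 : P.eval 1 = value c g x := by
    have := hval 0
    simpa using this
  by_cases hP0 : P = 0
  · rw [← hv1, hP0, Polynomial.eval_zero]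
  -- comparison of the polynomials at `s` and `2 s`
  set μ : ℝ := Real.exp (w * (Real.log 2 / 2)) with hμ
  have hpoly2 : P.comp (Polynomial.C 2 * Polynomial.X) = Polynomial.C μ * P := by
    rw [← sub_eq_zero]
    apply Polynomial.eq_zero_of_infinite_isRoot
    refine Set.Infinite.mono ?_ (Set.Ioi_infinite (0 : ℝ))
    intro s hs
    have hs' : (0 : ℝ) < s := hs
    show Polynomial.eval s _ = 0
    rw [Polynomial.eval_sub, Polynomial.eval_comp, Polynomial.eval_mul, Polynomial.eval_C,
      Polynomial.eval_X, Polynomial.eval_mul, Polynomial.eval_C]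
    have e1 : Real.exp (-2 * (-(Real.log s) / 2)) = s := by
      have : -2 * (-(Real.log s) / 2) = Real.log s := by ring
      rw [this, Real.exp_log hs']
    have e2 : Real.exp (-2 * (-(Real.log s) / 2 - Real.log 2 / 2)) = 2 * s := by
      have : -2 * (-(Real.log s) / 2 - Real.log 2 / 2) = Real.log 2 + Real.log s := by ring
      rw [this, Real.exp_add, Real.exp_log hs', Real.exp_log (by norm_num)]
    have h1 := hval (-(Real.log s) / 2)
    have h2 := hval (-(Real.log s) / 2 - Real.log 2 / 2)
    rw [e1] at h1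
    rw [e2] at h2
    rw [h1, h2, hμ, ← mul_assoc, ← Real.exp_add]
    have : -w * (-(Real.log s) / 2 - Real.log 2 / 2) =
        w * (Real.log 2 / 2) + -w * (-(Real.log s) / 2) := by ring
    rw [this, sub_self]
  obtain ⟨m, hm⟩ : ∃ m, P.coeff m ≠ 0 := by
    by_contra hcon
    push Not at hcon
    exact hP0 (Polynomial.ext fun m => by rw [hcon m, Polynomial.coeff_zero])
  have h3 : (2 : ℝ) ^ m = μ := by
    have h4 := congrArg (fun q : Polynomial ℝ => q.coeff m) hpoly2
    simp only [Polynomial.comp_C_mul_X_coeff, Polynomial.coeff_C_mul] at h4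
    rw [mul_comm μ] at h4
    exact mul_left_cancel₀ hm h4
  have h5' : w = ((2 * m : ℕ) : ℝ) := by
    have h6 := congrArg Real.log h3
    rw [Real.log_pow, hμ, Real.log_exp] at h6
    have hl : 0 < Real.log 2 := Real.log_pos (by norm_num)
    have h7 : (2 * (m : ℝ)) * Real.log 2 = w * Real.log 2 := by linarith
    have h8 := mul_right_cancel₀ hl.ne' h7
    push_cast
    exact h8.symm
  subst h5'
  have hk : 2 * m ≤ n := by exact_mod_cast hw
  exact main_even n m h5 hk c hc U hU g hg x hx

end Pool.Agent.Y147.CW
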